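import Pool.Agent.Helper47.TW.M67b
import Pool.Agent.Helper40.TWM.Stmts

/-!
Sheet TWM (MP_7a8f48_an), row MSP: from ergodic joinings to the property of the random part.
-/

open Finset Filter MeasureTheory Topology
open scoped ComplexConjugate InnerProductSpace BoundedContinuousFunction

namespace Pool.Agent.Helper47.TWM

open Pool.Agent.Helper16.AZ (T E Op mm)
open Pool.Agent.Helper16.BZ (co Wk EE EQ EE_shift EE_norm Wk_norm)
open Pool.Agent.Helper16.MD (PB Rich)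
open Pool.Agent.Helper40.DZ (RI UR SK EE_RI Wk_RI)
open Pool.Agent.Helper40.JZ (LM StrP)
open Pool.Agent.Helper40.TWM (NK aH ST_MSP)
open Pool.Agent.Helper47.TW

variable {R d : ℕ}

section

variable {S : T R → T R} {φ : T R → Op d} {c : T R → E d} {p q : ℕ} {lam : Measure (T R × T R)}

theorem aH_eq (H : ℕ) : aH S φ c p q lam H =
    (∑ h ∈ range H, ∑ h' ∈ range H, Nk S φ c p q lam h h') / (H : ℝ) ^ 2 := by
  unfold aH Nk
  rw [Complex.re_sum]
  congr 1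
  refine Finset.sum_congr rfl fun h _ => ?_
  rw [Complex.re_sum]
  rfl

/-- positive definite kernels have nonnegative sums -/
theorem sk_nonneg {N : ℕ → ℕ → ℝ} (hN : SK N) (H : ℕ) :
    0 ≤ ∑ h ∈ range H, ∑ h' ∈ range H, N h h' := by
  obtain ⟨⟨V, _, _, _, w, hw⟩, -⟩ := hN
  have h1 : (inner ℂ (∑ h ∈ range H, w h) (∑ h ∈ range H, w h) : ℂ) =
      ((∑ h ∈ range H, ∑ h' ∈ range H, N h h' : ℝ) : ℂ) := by
    rw [sum_inner]
    push_cast
    refine Finset.sum_congr rfl fun h _ => ?_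
    rw [inner_sum]
    exact Finset.sum_congr rfl fun h' _ => hw h h'
  have h2 := inner_self_nonneg (𝕜 := ℂ) (x := ∑ h ∈ range H, w h)
  rw [h1] at h2
  simpa using h2

/-- the average of the kernel as a function of pairs of points -/
noncomputable def PS (S : T R → T R) (φ : T R → Op d) (c : T R → E d) (p q H : ℕ)
    (z : T R × T R) : ℝ :=
  ∑ h ∈ range H, ∑ h' ∈ range H, (pk S φ c p q h h' z).re / (H : ℝ) ^ 2

theorem nice_mul {Ψ : T R × T R → ℝ} (h : Nice Ψ) {a : ℝ} (ha : 0 ≤ a) :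
    Nice (fun z => Ψ z * a) := by
  intro δ hδ
  obtain ⟨f, R₁, R₂, a1, a2, a3, a4, a5⟩ := h (δ / (a + 1)) (by positivity)
  have h6 : ∀ t : ℝ, t ≤ δ / (a + 1) → t * a ≤ δ := by
    intro t ht
    have h7 : 0 < a + 1 := by positivity
    calc t * a ≤ δ / (a + 1) * a := mul_le_mul_of_nonneg_right ht ha
      _ ≤ δ / (a + 1) * (a + 1) := mul_le_mul_of_nonneg_left (by linarith) (by positivity)
      _ = δ := by field_simp
  refine ⟨a • f, fun x => R₁ x * a, fun x => R₂ x * a, a1.mul continuous_const,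
    a2.mul continuous_const, fun z => ?_, ?_, ?_⟩
  · have h1 : Ψ z * a - (a • f) z = (Ψ z - f z) * a := by
      change Ψ z * a - a * f z = (Ψ z - f z) * a
      ring
    rw [h1, abs_mul, abs_of_nonneg ha, ← add_mul]
    exact mul_le_mul_of_nonneg_right (a3 z) ha
  · rw [integral_mul_const]
    exact h6 _ a4
  · rw [integral_mul_const]
    exact h6 _ a5

theorem nice_PS (hRIS : Pool.Agent.Helper40.DZ.ST_RIS) (hS : Continuous S)
    (hm : MeasurePreserving S (mm R) (mm R)) (hφ : UR φ) (hc : Continuous c) (p q H : ℕ) :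
    Nice (PS S φ c p q H) := by
  unfold PS
  refine Nice.sum _ fun h _ => Nice.sum _ fun h' _ => ?_
  simp only [div_eq_mul_inv]
  exact nice_mul (nice_pk hRIS hS hm hφ hc p q h h') (by positivity)

theorem PS_int (hS : Continuous S) (hm : MeasurePreserving S (mm R) (mm R)) (hφ : UR φ)
    (hc : Continuous c) (hl : Jn S p q lam) (H : ℕ) : Integrable (PS S φ c p q H) lam := by
  unfold PS
  refine integrable_finsetSum _ fun h _ => integrable_finsetSum _ fun h' _ => ?_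
  exact (pk_int hS hm hφ hc hl h h').re.div_const _

theorem PS_eq (hS : Continuous S) (hm : MeasurePreserving S (mm R) (mm R)) (hφ : UR φ)
    (hc : Continuous c) (hl : Jn S p q lam) (H : ℕ) :
    ∫ z, PS S φ c p q H z ∂lam = aH S φ c p q lam H := by
  have hi : ∀ h h' : ℕ, Integrable (fun z => (pk S φ c p q h h' z).re / (H : ℝ) ^ 2) lam :=
    fun h h' => (pk_int hS hm hφ hc hl h h').re.div_const ((H : ℝ) ^ 2)
  rw [aH_eq, Finset.sum_div]
  unfold PS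
  rw [integral_finsetSum _ fun h _ => integrable_finsetSum _ fun h' _ => hi h h']
  refine Finset.sum_congr rfl fun h _ => ?_
  rw [integral_finsetSum _ fun h' _ => hi h h', Finset.sum_div]
  refine Finset.sum_congr rfl fun h' _ => ?_
  rw [integral_div]
  congr 1
  exact integral_re (pk_int hS hm hφ hc hl h h')

/-- a uniform bound from the ergodic joinings -/
theorem pair_bound (hKER : Pool.Agent.Helper40.DZ.ST_KER) (hRIS : Pool.Agent.Helper40.DZ.ST_RIS)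
    (hS : Continuous S) (hm : MeasurePreserving S (mm R) (mm R)) (hE : EQ S (mm R)) (hφ : UR φ)
    (hc : Continuous c) (hp : 1 ≤ p) (hq : 1 ≤ q) (C ε : ℝ) (hε : 0 < ε)
    (hC : ∀ κ : Measure (T R × T R), IsProbabilityMeasure κ → κ.map Prod.fst = mm R →
      κ.map Prod.snd = mm R → Ergodic (Prod.map S^[p] S^[q]) κ →
      ∀ᶠ H : ℕ in atTop, aH S φ c p q κ H ≤ C) :
    ∃ j₀ : ℕ, ∀ j ≥ j₀, ∀ lam : Measure (T R × T R), Jn S p q lam →
      aH S φ c p q lam (j + 1).factorial < C + ε := by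
  have hτ : Continuous (Prod.map S^[p] S^[q]) := (hS.iterate p).prodMap (hS.iterate q)
  obtain ⟨j₀, hj⟩ := unif_boundF hτ (fun j lam => aH S φ c p q lam (j + 1).factorial)
    (fun j => by
      have h1 := (nice_PS hRIS hS hm hφ hc p q (j + 1).factorial).app hS hE hp hq
        fun lam hl => PS_int hS hm hφ hc hl _
      intro δ hδ
      obtain ⟨f, hf⟩ := h1 δ hδ
      refine ⟨f, fun lam hl hi => ?_⟩
      have h2 := hf lam hl hi
      simp only at h2 ⊢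
      rwa [PS_eq hS hm hφ hc (Jn.of_inv hS hE hp hq lam hl hi)] at h2)
    (fun lam hl hi => antitone_nat_of_succ_le fun j => by
      have hJ := Jn.of_inv hS hE hp hq lam hl hi
      have h1 := (hKER _ (Nk_SK hS hm hφ hc hJ)).2 1 (j + 1).factorial (j + 2)
      simp only [one_mul] at h1
      have h2 : (j + 1 + 1).factorial = (j + 1).factorial * (j + 2) := by
        rw [Nat.factorial_succ, mul_comm]
      have h3 : (0 : ℝ) < ((j + 1).factorial : ℝ) := by exact_mod_cast Nat.factorial_pos _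
      have h4 : (0 : ℝ) < ((j + 2 : ℕ) : ℝ) := by positivity
      rw [aH_eq, aH_eq, h2, div_le_div_iff₀ (by positivity) (by positivity)]
      push_cast at h1 ⊢
      nlinarith [mul_le_mul_of_nonneg_right h1 (sq_nonneg ((j + 1).factorial : ℝ))])
    0 (fun lam hl hi j => by
      rw [aH_eq]
      exact div_nonneg (sk_nonneg (Nk_SK hS hm hφ hc (Jn.of_inv hS hE hp hq lam hl hi)) _)
        (sq_nonneg _)) (C + ε) (fun lam hl he => by
      have hJ := Jn.of_inv hS hE hp hq lam hl he.toMeasurePreserving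
      obtain ⟨H₁, h1⟩ := eventually_atTop.1 (hC lam hl hJ.fst hJ.snd he)
      refine ⟨H₁, ?_⟩
      have h2 := h1 (H₁ + 1).factorial ((Nat.le_succ H₁).trans (Nat.self_le_factorial _))
      show aH S φ c p q lam (H₁ + 1).factorial < C + ε
      linarith)
  exact ⟨j₀, fun j hjj lam hl => hj j hjj lam hl.prob hl.inv⟩

/-- the product measure is a joining -/
theorem jn_prod (hm : MeasurePreserving S (mm R) (mm R)) (p : ℕ) :
    Jn S p p ((mm R).prod (mm R)) := by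
  refine ⟨inferInstance, ?_, ?_, (hm.iterate p).prod (hm.iterate p)⟩
  · rw [Measure.map_fst_prod, measure_univ, one_smul]
  · rw [Measure.map_snd_prod, measure_univ, one_smul]

theorem Nk_prod (p : ℕ) (h h' : ℕ) : Nk S φ c p p ((mm R).prod (mm R)) h h' =
    NK (mm R) S φ c (p * h) (p * h') := by
  unfold Nk NK pk
  rw [integral_prod_mul (μ := mm R) (ν := mm R) (EE S φ c (p * h) (p * h'))
    (fun x => conj (EE S φ c (p * h) (p * h') x)), integral_conj, Complex.mul_conj,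
    Complex.ofReal_re, Complex.normSq_eq_norm_sq]

/-- the limit mass is at most the average -/
theorem LM_le (hLMF : Pool.Agent.Helper40.JZ.ST_LMF) (hS : Continuous S)
    (hm : MeasurePreserving S (mm R) (mm R)) (hφ : UR φ) (hc : Continuous c) (p H₀ : ℕ)
    (hH : 1 ≤ H₀) : LM (NK (mm R) S φ c) p ≤
    (∑ h ∈ range H₀, ∑ h' ∈ range H₀, NK (mm R) S φ c (p * h) (p * h')) / (H₀ : ℝ) ^ 2 := by
  have h1 := (hLMF _ (Nk_SK hS hm hφ hc (jn_prod hm p))).2.2.2.1 H₀ hH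
  have h2 : LM (Nk S φ c p p ((mm R).prod (mm R))) 1 = LM (NK (mm R) S φ c) p := by
    unfold LM
    simp only [Nk_prod, one_mul]
  rw [h2] at h1
  simpa only [Nk_prod] using h1

end

/-- expansion of the square -/
theorem str4_sq' (Q : Finset ℕ) (z : ℕ → ℂ) :
    ‖∑ p ∈ Q, z p‖ ^ 2 =
      ∑ p ∈ Q, ‖z p‖ ^ 2 + ∑ p ∈ Q, ∑ q ∈ Q.erase p, (z p * conj (z q)).re := by
  have h1 : ‖∑ p ∈ Q, z p‖ ^ 2 = ((∑ p ∈ Q, z p) * conj (∑ p ∈ Q, z p)).re := by
    rw [Complex.mul_conj, Complex.ofReal_re, Complex.normSq_eq_norm_sq]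
  have h2 : (∑ p ∈ Q, z p) * conj (∑ p ∈ Q, z p) = ∑ p ∈ Q, ∑ q ∈ Q, z p * conj (z q) := by
    rw [map_sum, Finset.sum_mul_sum]
  rw [h1, h2, Complex.re_sum, ← Finset.sum_add_distrib]
  refine Finset.sum_congr rfl fun p hp => ?_
  rw [Complex.re_sum, ← Finset.add_sum_erase Q _ hp]
  congr 1
  rw [Complex.mul_conj, Complex.ofReal_re, Complex.normSq_eq_norm_sq]

/-- rich blocks have many primes -/
theorem rich_large (B : ℝ) : ∀ᶠ i : ℕ in atTop, Rich 1 i → B ≤ ((PB 1 i).card : ℝ) := by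
  have h1 := tendsto_pow_const_div_const_pow_of_one_lt 1 (r := (2 : ℝ)) (by norm_num)
  have h2 : Tendsto (fun i : ℕ => (4 * |B|) * ((i : ℝ) ^ 1 / 2 ^ i)) atTop (𝓝 0) := by
    simpa using h1.const_mul (4 * |B|)
  filter_upwards [h2.eventually (gt_mem_nhds one_pos), eventually_gt_atTop 0] with i hi hi0 hr
  have h3 : (0 : ℝ) < 2 ^ i := by positivity
  have h4 : (2 : ℝ) ^ i ≤ 4 * i * ((PB 1 i).card : ℝ) := by
    unfold Rich at hr
    exact_mod_cast hr
  have h5 : 4 * |B| * (i : ℝ) < 2 ^ i := by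
    rw [pow_one, mul_div_assoc', div_lt_one h3] at hi
    exact hi
  have h6 : (0 : ℝ) < i := by exact_mod_cast hi0
  have h7 : |B| ≤ ((PB 1 i).card : ℝ) := by
    by_contra hlt
    push Not at hlt
    nlinarith [mul_lt_mul_of_pos_right hlt h6]
  exact (le_abs_self B).trans h7

theorem st_MSP (hKER : Pool.Agent.Helper40.DZ.ST_KER) (hLMF : Pool.Agent.Helper40.JZ.ST_LMF)
    (hRIS : Pool.Agent.Helper40.DZ.ST_RIS) (hEQR : Pool.Agent.Helper40.DZ.ST_EQR) : ST_MSP := by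
  intro R S hS hm hE hyp d φ c x κ H₀ hφ hc hκ hH₀ hyp2
  obtain ⟨V, hV⟩ := (RI.of_continuous hc).2
  obtain ⟨P₀, hP⟩ := hyp d φ c hφ hc (κ / 16) (by positivity)
  have hpow : ∀ᶠ i : ℕ in atTop, P₀ ≤ 2 ^ i := by
    filter_upwards [eventually_ge_atTop P₀] with i hi
    exact hi.trans Nat.lt_two_pow_self.le
  filter_upwards [hyp2, rich_large (2 * (V ^ 2 * V ^ 2) / κ + 1), hpow] with i h1 h2 h3
  intro hrich
  have hyp1 := h1 hrich
  have hbig := h2 hrich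
  obtain ⟨b, hb⟩ : ∃ b : ℝ, b = ((PB 1 i).card : ℝ) := ⟨_, rfl⟩
  rw [← hb] at hyp1 hbig
  have hb0 : 0 < b := lt_of_lt_of_le (by positivity) hbig
  have hbV : V ^ 2 * V ^ 2 ≤ κ / 2 * b := by
    have h4 : 2 * (V ^ 2 * V ^ 2) / κ ≤ b := by linarith
    rw [div_le_iff₀ hκ] at h4
    linarith
  have hPB : ∀ p ∈ PB 1 i, p.Prime ∧ P₀ ≤ p := fun p hp => by
    unfold PB at hp
    rw [Finset.mem_filter, Finset.mem_Ioc] at hp
    exact ⟨hp.2.1, h3.trans hp.1.1.le⟩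
  -- the averages of the masses
  obtain ⟨L, hL⟩ : ∃ L : ℕ → ℝ, L = fun p => LM (NK (mm R) S φ c) p := ⟨_, rfl⟩
  obtain ⟨A, hA⟩ : ∃ A : ℕ → ℝ, A = fun p =>
    (∑ h ∈ range H₀, ∑ h' ∈ range H₀, NK (mm R) S φ c (p * h) (p * h')) / (H₀ : ℝ) ^ 2 := ⟨_, rfl⟩
  have hH0 : (0 : ℝ) < (H₀ : ℝ) := by exact_mod_cast hH₀
  have hA0 : ∀ p, 0 ≤ A p := fun p => by
    rw [hA]
    refine div_nonneg (Finset.sum_nonneg fun _ _ => Finset.sum_nonneg fun _ _ => ?_) (sq_nonneg _)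
    exact sq_nonneg _
  have hLA : ∀ p, √(L p) ≤ √(A p) := fun p => by
    rw [hL, hA]
    exact Real.sqrt_le_sqrt (LM_le hLMF hS hm hφ hc p H₀ hH₀)
  have hAs : ∑ p ∈ PB 1 i, A p ≤ κ * b := by
    rw [hA]
    simp only
    rw [← Finset.sum_div, div_le_iff₀ (by positivity)]
    exact hyp1
  -- the number of shifts
  have hj : ∀ p q : ℕ, ∃ j₀ : ℕ, p ∈ PB 1 i → q ∈ PB 1 i → p ≠ q → ∀ j ≥ j₀,
      ∀ lam : Measure (T R × T R), Jn S p q lam →
      aH S φ c p q lam (j + 1).factorial < √(L p) * √(L q) + κ / 16 + κ / 16 := by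
    intro p q
    by_cases hpq : p ∈ PB 1 i ∧ q ∈ PB 1 i ∧ p ≠ q
    · obtain ⟨k1, k2, k3⟩ := hpq
      obtain ⟨p1, p2⟩ := hPB p k1
      obtain ⟨q1, q2⟩ := hPB q k2
      obtain ⟨j₀, hj₀⟩ := pair_bound (φ := φ) (c := c) hKER hRIS hS hm hE hφ hc p1.one_lt.le
        q1.one_lt.le (√(L p) * √(L q) + κ / 16) (κ / 16) (by positivity)
        fun lam l1 l2 l3 l4 => by
          rw [hL]
          exact hP p p2 p1 q q2 q1 k3 lam l1 l2 l3 l4
      exact ⟨j₀, fun _ _ _ => hj₀⟩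
    · exact ⟨0, fun k1 k2 k3 => absurd ⟨k1, k2, k3⟩ hpq⟩
  choose j₀ hj₀ using hj
  obtain ⟨J, hJ⟩ : ∃ J : ℕ, ∀ p ∈ PB 1 i, ∀ q ∈ PB 1 i, j₀ p q ≤ J := by
    refine ⟨∑ p ∈ PB 1 i, ∑ q ∈ PB 1 i, j₀ p q, fun p hp q hq => ?_⟩
    exact (Finset.single_le_sum (f := fun q => j₀ p q) (fun _ _ => Nat.zero_le _) hq).trans
      (Finset.single_le_sum (f := fun p => ∑ q ∈ PB 1 i, j₀ p q) (fun _ _ => Nat.zero_le _) hp)
  obtain ⟨H, hH⟩ : ∃ H : ℕ, H = (J + 1).factorial := ⟨_, rfl⟩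
  have hH1 : 1 ≤ H := by
    rw [hH]
    exact Nat.factorial_pos _
  have hHpos : (0 : ℝ) < (H : ℝ) := by exact_mod_cast hH1
  refine ⟨H, hH1, fun Q hQ => ?_⟩
  have hpair : ∀ᶠ M : ℕ in atTop, ∀ p ∈ Q, ∀ q ∈ Q.erase p,
      ∑ y ∈ Icc 1 M, PS S φ c p q H (S^[p * y] x, S^[q * y] x) ≤
        (√(A p) * √(A q) + κ / 4) * M := by
    rw [Filter.eventually_all_finset]
    intro p hp
    rw [Filter.eventually_all_finset]
    intro q hq
    have hq' := Finset.mem_erase.1 hq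
    have k1 := hQ hp
    have k2 := hQ hq'.2
    have p1 := (hPB p k1).1.one_lt.le
    have q1 := (hPB q k2).1.one_lt.le
    have h4 := (nice_PS hRIS hS hm hφ hc p q H).orbit hEQR hS hE p1 q1
      (fun lam hl => PS_int hS hm hφ hc hl H) (√(L p) * √(L q) + κ / 16 + κ / 16)
      (fun lam hl => by
        rw [PS_eq hS hm hφ hc hl, hH]
        exact hj₀ p q k1 k2 (Ne.symm hq'.1) J (hJ p k1 q k2) lam hl) x (κ / 8) (by positivity)
    filter_upwards [h4] with M hM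
    refine hM.trans (mul_le_mul_of_nonneg_right ?_ (Nat.cast_nonneg M))
    have h5 : √(L p) * √(L q) ≤ √(A p) * √(A q) :=
      mul_le_mul (hLA p) (hLA q) (Real.sqrt_nonneg _) (Real.sqrt_nonneg _)
    linarith
  filter_upwards [hpair] with M hM
  have hM0 : (0 : ℝ) ≤ M := Nat.cast_nonneg M
  have hqb : (Q.card : ℝ) ≤ b := by
    rw [hb]
    exact_mod_cast Finset.card_le_card hQ
  -- the expansion
  have e1 : ∀ h h' y : ℕ, ‖∑ p ∈ Q, EE S φ c (p * h) (p * h') (S^[p * y] x)‖ ^ 2 =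
      ∑ p ∈ Q, ‖EE S φ c (p * h) (p * h') (S^[p * y] x)‖ ^ 2 +
      ∑ p ∈ Q, ∑ q ∈ Q.erase p, (pk S φ c p q h h' (S^[p * y] x, S^[q * y] x)).re :=
    fun h h' y => str4_sq' Q fun p => EE S φ c (p * h) (p * h') (S^[p * y] x)
  have e2 : ∑ h ∈ range H, ∑ h' ∈ range H, ∑ y ∈ Icc 1 M,
      ∑ p ∈ Q, ‖EE S φ c (p * h) (p * h') (S^[p * y] x)‖ ^ 2 ≤
      V ^ 2 * V ^ 2 * b * (H : ℝ) ^ 2 * M := by
    have f1 : ∀ (p h h' y : ℕ), ‖EE S φ c (p * h) (p * h') (S^[p * y] x)‖ ^ 2 ≤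
        V ^ 2 * V ^ 2 := by
      intro p h h' y
      have := EE_norm S φ c hφ.2 V hV (p * h) (p * h') (S^[p * y] x)
      rw [sq]
      exact mul_le_mul this this (norm_nonneg _) (sq_nonneg _)
    calc ∑ h ∈ range H, ∑ h' ∈ range H, ∑ y ∈ Icc 1 M,
          ∑ p ∈ Q, ‖EE S φ c (p * h) (p * h') (S^[p * y] x)‖ ^ 2
        ≤ ∑ h ∈ range H, ∑ h' ∈ range H, ∑ y ∈ Icc 1 M, ∑ p ∈ Q, V ^ 2 * V ^ 2 :=
          Finset.sum_le_sum fun h _ => Finset.sum_le_sum fun h' _ => Finset.sum_le_sum fun y _ =>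
            Finset.sum_le_sum fun p _ => f1 p h h' y
      _ = V ^ 2 * V ^ 2 * Q.card * (H : ℝ) ^ 2 * M := by
          simp only [Finset.sum_const, Finset.card_range, Nat.card_Icc, nsmul_eq_mul,
            Nat.add_sub_cancel]
          ring
      _ ≤ V ^ 2 * V ^ 2 * b * (H : ℝ) ^ 2 * M := by
          gcongr
  have e3 : ∑ h ∈ range H, ∑ h' ∈ range H, ∑ y ∈ Icc 1 M,
      ∑ p ∈ Q, ∑ q ∈ Q.erase p, (pk S φ c p q h h' (S^[p * y] x, S^[q * y] x)).re =
      ∑ p ∈ Q, ∑ q ∈ Q.erase p, (H : ℝ) ^ 2 *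
        ∑ y ∈ Icc 1 M, PS S φ c p q H (S^[p * y] x, S^[q * y] x) := by
    have f1 : ∀ p q y : ℕ, (H : ℝ) ^ 2 * PS S φ c p q H (S^[p * y] x, S^[q * y] x) =
        ∑ h ∈ range H, ∑ h' ∈ range H, (pk S φ c p q h h' (S^[p * y] x, S^[q * y] x)).re := by
      intro p q y
      unfold PS
      rw [Finset.mul_sum]
      refine Finset.sum_congr rfl fun h _ => ?_
      rw [Finset.mul_sum]
      refine Finset.sum_congr rfl fun h' _ => ?_
      field_simp
    simp only [Finset.mul_sum, f1]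
    have g1 : ∀ h ∈ range H, ∑ h' ∈ range H, ∑ y ∈ Icc 1 M,
        ∑ p ∈ Q, ∑ q ∈ Q.erase p, (pk S φ c p q h h' (S^[p * y] x, S^[q * y] x)).re =
        ∑ p ∈ Q, ∑ q ∈ Q.erase p, ∑ y ∈ Icc 1 M, ∑ h' ∈ range H,
          (pk S φ c p q h h' (S^[p * y] x, S^[q * y] x)).re := by
      intro h _
      rw [Finset.sum_comm]
      have : ∀ y ∈ Icc 1 M, ∑ h' ∈ range H,
          ∑ p ∈ Q, ∑ q ∈ Q.erase p, (pk S φ c p q h h' (S^[p * y] x, S^[q * y] x)).re =
          ∑ p ∈ Q, ∑ q ∈ Q.erase p, ∑ h' ∈ range H,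
          (pk S φ c p q h h' (S^[p * y] x, S^[q * y] x)).re := by
        intro y _
        rw [Finset.sum_comm]
        exact Finset.sum_congr rfl fun p _ => Finset.sum_comm
      rw [Finset.sum_congr rfl this, Finset.sum_comm]
      exact Finset.sum_congr rfl fun p _ => Finset.sum_comm
    rw [Finset.sum_congr rfl g1, Finset.sum_comm]
    refine Finset.sum_congr rfl fun p _ => ?_
    rw [Finset.sum_comm]
    refine Finset.sum_congr rfl fun q _ => ?_
    rw [Finset.sum_comm]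
  have e4 : ∑ p ∈ Q, ∑ q ∈ Q.erase p, (H : ℝ) ^ 2 *
        ∑ y ∈ Icc 1 M, PS S φ c p q H (S^[p * y] x, S^[q * y] x) ≤
      (H : ℝ) ^ 2 * (κ * b ^ 2 + κ / 4 * b ^ 2) * M := by
    have f1 : ∑ p ∈ Q, ∑ q ∈ Q.erase p, (H : ℝ) ^ 2 *
        ∑ y ∈ Icc 1 M, PS S φ c p q H (S^[p * y] x, S^[q * y] x) ≤
        ∑ p ∈ Q, ∑ q ∈ Q, (H : ℝ) ^ 2 * ((√(A p) * √(A q) + κ / 4) * M) := by
      refine Finset.sum_le_sum fun p hp => ?_
      refine (Finset.sum_le_sum fun q hq =>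
        mul_le_mul_of_nonneg_left (hM p hp q hq) (sq_nonneg _)).trans ?_
      exact Finset.sum_le_sum_of_subset_of_nonneg (Finset.erase_subset _ _) fun q _ _ => by
        positivity
    refine f1.trans ?_
    have f2 : ∑ p ∈ Q, ∑ q ∈ Q, (H : ℝ) ^ 2 * ((√(A p) * √(A q) + κ / 4) * M) =
        (H : ℝ) ^ 2 * ((∑ p ∈ Q, √(A p)) ^ 2 + κ / 4 * (Q.card : ℝ) ^ 2) * M := by
      have g1 : ∀ p ∈ Q, ∑ q ∈ Q, (H : ℝ) ^ 2 * ((√(A p) * √(A q) + κ / 4) * M) =
          (H : ℝ) ^ 2 * M * (√(A p) * ∑ q ∈ Q, √(A q) + Q.card * (κ / 4)) := by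
        intro p _
        rw [Finset.mul_sum (s := Q) (f := fun q => √(A q)), ← nsmul_eq_mul, ← Finset.sum_const,
          ← Finset.sum_add_distrib, Finset.mul_sum]
        exact Finset.sum_congr rfl fun q _ => by ring
      rw [Finset.sum_congr rfl g1, ← Finset.mul_sum, Finset.sum_add_distrib, ← Finset.sum_mul,
        Finset.sum_const, nsmul_eq_mul]
      ring
    rw [f2]
    have f3 : (∑ p ∈ Q, √(A p)) ^ 2 ≤ κ * b ^ 2 := by
      have g1 : (∑ p ∈ Q, √(A p)) ^ 2 ≤ Q.card * ∑ p ∈ Q, √(A p) ^ 2 := sq_sum_le_card_mul_sum_sq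
      have g2 : ∑ p ∈ Q, √(A p) ^ 2 ≤ κ * b := by
        refine le_trans ?_ hAs
        refine (Finset.sum_le_sum_of_subset_of_nonneg hQ fun p _ _ => sq_nonneg _).trans ?_
        exact Finset.sum_le_sum fun p _ => (Real.sq_sqrt (hA0 p)).le
      have g3 : 0 ≤ ∑ p ∈ Q, √(A p) ^ 2 := Finset.sum_nonneg fun _ _ => sq_nonneg _
      calc (∑ p ∈ Q, √(A p)) ^ 2 ≤ Q.card * ∑ p ∈ Q, √(A p) ^ 2 := g1
        _ ≤ b * (κ * b) := mul_le_mul hqb g2 g3 hb0.le
        _ = κ * b ^ 2 := by ring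
    have f4 : κ / 4 * (Q.card : ℝ) ^ 2 ≤ κ / 4 * b ^ 2 := by
      gcongr
    gcongr
  simp only [e1, Finset.sum_add_distrib]
  rw [e3]
  refine (add_le_add e2 e4).trans ?_
  rw [← hb]
  have e5 : V ^ 2 * V ^ 2 * b ≤ κ / 2 * b ^ 2 := by
    have := mul_le_mul_of_nonneg_right hbV hb0.le
    nlinarith
  have e6 : V ^ 2 * V ^ 2 * b * (H : ℝ) ^ 2 * M ≤ κ / 2 * b ^ 2 * (H : ℝ) ^ 2 * M := by
    gcongr
  have e7 : 0 ≤ κ * b ^ 2 * (H : ℝ) ^ 2 * M := by positivity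
  nlinarith

end Pool.Agent.Helper47.TWM
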